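import Pool.Agent.H27.L1.H34.GU.Targets1

/-!
# Board gu (MP_52e316_nt), row APU: the a priori bound for the parameters of bounded forms
-/

set_option autoImplicit false

namespace Pool.Agent.H27.L1.H67.GU

open MeasureTheory Pool.Agent.H27.L1.H34.GM Pool.Agent.H27.L1.H34.GZ Pool.Agent.H27.L1.H34.GU Filter Topology

theorem apu_hm_null {m : ℕ} (hm1 : 1 ≤ m) : hm m {z | (mt z).det = 0} = 0 := by
  have hc : Continuous fun z : V m => (mt z).det := Continuous.matrix_det continuous_id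
  have hS : MeasurableSet {z : V m | (mt z).det = 0} :=
    (isClosed_singleton.preimage hc).measurableSet
  unfold hm
  rw [withDensity_apply _ hS]
  rw [setLIntegral_congr_fun hS (g := fun _ => 0)]
  · simp
  · intro z hz
    have hz' : (mt z).det = 0 := hz
    show ENNReal.ofReal ((|(mt z).det| ^ m)⁻¹) = 0
    rw [hz', abs_zero, zero_pow (by omega), inv_zero, ENNReal.ofReal_zero]

/-- bounded forms have bounded spherical functions -/
theorem apu_ap1 (hHAR : T_HAR) (m N : ℕ) [NeZero N] (T : ℕ → Finset (ZM m))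
    (F : Mat m → VN m N → ℂ) (lam : ℕ → ℂ) (mu : Fin m → ℂ) (hm1 : 1 ≤ m)
    (hF : EigU m N T F lam mu) (hN : NZ F) (k : Mat m → ℂ) (hk : Tst m k) :
    ‖∫ z, k (mt z) * pw mu (mt z) ∂(hm m)‖ ≤ ∫ z, ‖k (mt z)‖ ∂(hm m) := by
  obtain ⟨B, hB⟩ := hF.bdd
  obtain ⟨g0, x0, hg0, hx0⟩ := hN
  -- the supremum
  obtain ⟨S, hS⟩ : ∃ S : Set ℝ, S = {r : ℝ | ∃ g x, g.det ≠ 0 ∧ r = ‖F g x‖} := ⟨_, rfl⟩
  have hSb : BddAbove S := by
    refine ⟨B, ?_⟩
    rintro r hr
    rw [hS] at hr
    obtain ⟨g, x, hg, rfl⟩ := hr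
    exact hB g x hg
  have hSn : S.Nonempty := by
    rw [hS]
    exact ⟨_, g0, x0, hg0, rfl⟩
  obtain ⟨s, hs⟩ : ∃ s : ℝ, s = sSup S := ⟨_, rfl⟩
  have hle : ∀ g x, g.det ≠ 0 → ‖F g x‖ ≤ s := by
    intro g x hg
    rw [hs]
    refine le_csSup hSb ?_
    rw [hS]
    exact ⟨g, x, hg, rfl⟩
  have hs0 : 0 < s := lt_of_lt_of_le (norm_pos_iff.2 hx0) (hle g0 x0 hg0)
  obtain ⟨P, hP⟩ : ∃ P : ℂ, P = ∫ z, k (mt z) * pw mu (mt z) ∂(hm m) := ⟨_, rfl⟩
  obtain ⟨I, hI⟩ : ∃ I : ℝ, I = ∫ z, ‖k (mt z)‖ ∂(hm m) := ⟨_, rfl⟩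
  rw [← hP, ← hI]
  -- integrability of k
  have hkm : Measurable fun z : V m => k (mt z) := by
    have : Continuous fun z : V m => k (mt z) := hk.cont.comp continuous_id
    exact this.measurable
  have hki : Integrable (fun z : V m => ‖k (mt z)‖) (hm m) := by
    obtain ⟨c, hc, hsup⟩ := hk.supp
    obtain ⟨-, -, -, h4⟩ := hHAR m hm1
    have hfin := h4 c hc
    obtain ⟨E, hE⟩ : ∃ E : Set (V m), E = {z | sz (mt z) ≤ c ∧ c⁻¹ ≤ |(mt z).det|} := ⟨_, rfl⟩
    have hszc : Continuous fun z : V m => sz (mt z) := by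
      unfold sz
      exact continuous_norm.comp continuous_id
    have hdc : Continuous fun z : V m => (mt z).det := Continuous.matrix_det continuous_id
    have hEc : IsClosed E := by
      rw [hE]
      exact (isClosed_le hszc continuous_const).inter (isClosed_le continuous_const hdc.abs)
    have hEb : Bornology.IsBounded E := by
      refine (Metric.isBounded_closedBall (x := (0 : V m)) (r := c)).subset ?_
      intro z hz
      rw [hE] at hz
      rw [Metric.mem_closedBall, dist_zero_right]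
      exact hz.1
    have hEk : IsCompact E := Metric.isCompact_of_isClosed_isBounded hEc hEb
    have hcont : Continuous fun z : V m => ‖k (mt z)‖ := (hk.cont.comp continuous_id).norm
    obtain ⟨M, hM⟩ : ∃ M : ℝ, ∀ z ∈ E, ‖k (mt z)‖ ≤ M := by
      obtain ⟨M, hM⟩ := hEk.exists_bound_of_continuousOn (hcont.continuousOn)
      refine ⟨M, fun z hz => ?_⟩
      have := hM z hz
      rwa [norm_norm] at this
    have h0 : (fun z : V m => ‖k (mt z)‖) = E.indicator (fun z : V m => ‖k (mt z)‖) := by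
      ext z
      by_cases hz : z ∈ E
      · rw [Set.indicator_of_mem hz]
      · rw [Set.indicator_of_notMem hz]
        by_contra h
        have h1 : k (mt z) ≠ 0 := fun h' => h (by rw [h', norm_zero])
        have h2 := hsup (mt z) h1
        exact hz (by rw [hE]; exact h2)
    rw [h0, integrable_indicator_iff hEc.measurableSet]
    refine Measure.integrableOn_of_bounded (M := M) ?_ ?_ ?_
    · rw [hE]
      exact hfin.ne
    · exact hcont.aestronglyMeasurable
    · rw [ae_restrict_iff' hEc.measurableSet]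
      refine Filter.Eventually.of_forall fun z hz => ?_
      rw [norm_norm]
      exact hM z hz
  have key : ∀ g x, g.det ≠ 0 → ‖F g x‖ * ‖P‖ ≤ I * s := by
    intro g x hg
    rw [← norm_mul, hP, ← hF.arch k hk g x hg, hI, ← integral_mul_const]
    refine (norm_integral_le_integral_norm _).trans ?_
    refine integral_mono_of_nonneg (Filter.Eventually.of_forall fun z => norm_nonneg _)
      (hki.mul_const s) ?_
    have hae : ∀ᵐ z ∂(hm m), (mt z).det ≠ 0 := by
      rw [ae_iff]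
      simpa using apu_hm_null hm1
    refine hae.mono fun z hz => ?_
    show ‖k (mt z) * F (g * (mt z)⁻¹) x‖ ≤ ‖k (mt z)‖ * s
    rw [norm_mul]
    refine mul_le_mul_of_nonneg_left (hle _ x ?_) (norm_nonneg _)
    rw [Matrix.det_mul]
    refine mul_ne_zero hg ?_
    have h1 : (mt z).det * ((mt z)⁻¹).det = 1 := by
      rw [← Matrix.det_mul, Matrix.mul_nonsing_inv _ (isUnit_iff_ne_zero.2 hz), Matrix.det_one]
    intro h2
    rw [h2, mul_zero] at h1
    exact zero_ne_one h1
  have hfin : s * ‖P‖ ≤ I * s := by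
    by_contra hcon
    have hP0 : 0 < ‖P‖ := by
      rcases (norm_nonneg P).eq_or_lt with h | h
      · exfalso
        rw [← h, mul_zero] at hcon
        have : 0 ≤ I * s := by
          have h1 := key g0 x0 hg0
          exact (mul_nonneg (norm_nonneg _) (norm_nonneg _)).trans h1
        exact hcon this
      · exact h
    have h3 : s ≤ I * s / ‖P‖ := by
      rw [hs]
      refine csSup_le hSn ?_
      intro r hr
      rw [hS] at hr
      obtain ⟨g, x, hg, rfl⟩ := hr
      rw [← hs, le_div_iff₀ hP0]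
      exact key g x hg
    rw [le_div_iff₀ hP0] at h3
    exact hcon h3
  have h4 : ‖P‖ * s ≤ I * s := by
    rw [mul_comm]
    exact hfin
  exact le_of_mul_le_mul_right h4 hs0

theorem pf_APU : T_HAR → T_AP2 → T_GAU → T_APU := by
  intro h1 h2 h3 m N _ T F lam mu hm hE hF
  have hA := apu_ap1 h1 m N T F lam mu hm hE hF
  have : Nonempty (Fin m) := ⟨⟨0, hm⟩⟩
  obtain ⟨j0, hj0⟩ := Finite.exists_max (fun j => (mu j).re)
  by_contra hcon
  push Not at hcon
  obtain ⟨j1, hj1⟩ := hcon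
  have hσ : ((m : ℝ) - 1) / 2 < (mu j0).re := hj1.trans_le (hj0 j1)
  obtain ⟨σ0, h01, h02, h03⟩ : ∃ σ0 : ℝ, ((m : ℝ) - 1) / 2 < σ0 ∧ σ0 < (mu j0).re ∧
      (mu j0).re ≤ σ0 + 1 / 2 := by
    refine ⟨max ((((m : ℝ) - 1) / 2 + (mu j0).re) / 2) ((mu j0).re - 1 / 2), ?_, ?_, ?_⟩
    · exact lt_max_of_lt_left (by linarith)
    · exact max_lt (by linarith) (by linarith)
    · have := le_max_right ((((m : ℝ) - 1) / 2 + (mu j0).re) / 2) ((mu j0).re - 1 / 2)
      linarith
  obtain ⟨C, hC⟩ := h2 m hm mu hA σ0 h01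
  obtain ⟨c, hc, hG⟩ := h3 m hm
  have hpi : (Real.pi : ℂ) ≠ 0 := by exact_mod_cast Real.pi_ne_zero
  obtain ⟨P, hP⟩ : ∃ P : ℝ → ℂ, P = fun h : ℝ => ∏ j, ((Real.pi : ℂ) ^
      ((mu j0 + h - mu j) / 2) * (Complex.Gamma ((mu j0 + h - mu j) / 2))⁻¹) := ⟨_, rfl⟩
  have hcont : Continuous P := by
    rw [hP]
    refine continuous_finsetProd _ fun j _ => ?_
    have hl : Continuous fun h : ℝ => (mu j0 + h - mu j) / 2 := by fun_prop
    refine Continuous.mul ?_ ?_
    · exact hl.const_cpow (Or.inl hpi)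
    · exact Complex.differentiable_one_div_Gamma.continuous.comp hl
  have hP0 : P 0 = 0 := by
    rw [hP]
    refine Finset.prod_eq_zero (Finset.mem_univ j0) ?_
    simp
  have key : ∀ h : ℝ, 0 < h → h ≤ 1 / 2 → ‖c‖ ≤ C * ‖P h‖ := by
    intro h hh hh2
    have hs : (mu j0 + (h : ℂ)).re = (mu j0).re + h := by simp
    have hre : ∀ j, (mu j).re < (mu j0 + (h : ℂ)).re := by
      intro j
      rw [hs]
      have := hj0 j
      linarith
    have hb := hC (mu j0 + h) (by rw [hs]; linarith) (by rw [hs]; linarith) hre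
    rw [hG mu (mu j0 + h) hre] at hb
    have e : (∏ j, ((Real.pi : ℂ) ^ (-(mu j0 + h - mu j) / 2) *
        Complex.Gamma ((mu j0 + h - mu j) / 2))) * P h = 1 := by
      rw [hP]
      simp only
      rw [← Finset.prod_mul_distrib]
      refine Finset.prod_eq_one fun j _ => ?_
      have hg : Complex.Gamma ((mu j0 + h - mu j) / 2) ≠ 0 := by
        refine Complex.Gamma_ne_zero_of_re_pos ?_
        have := hre j
        rw [Complex.div_ofNat_re, Complex.sub_re]
        linarith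
      have e2 : (Real.pi : ℂ) ^ (-(mu j0 + h - mu j) / 2) *
          (Real.pi : ℂ) ^ ((mu j0 + h - mu j) / 2) = 1 := by
        rw [← Complex.cpow_add _ _ hpi]
        rw [show -(mu j0 + h - mu j) / 2 + (mu j0 + h - mu j) / 2 = (0 : ℂ) by ring]
        exact Complex.cpow_zero _
      calc (Real.pi : ℂ) ^ (-(mu j0 + h - mu j) / 2) *
            Complex.Gamma ((mu j0 + h - mu j) / 2) * ((Real.pi : ℂ) ^
            ((mu j0 + h - mu j) / 2) * (Complex.Gamma ((mu j0 + h - mu j) / 2))⁻¹)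
          = ((Real.pi : ℂ) ^ (-(mu j0 + h - mu j) / 2) *
            (Real.pi : ℂ) ^ ((mu j0 + h - mu j) / 2)) *
            (Complex.Gamma ((mu j0 + h - mu j) / 2) *
            (Complex.Gamma ((mu j0 + h - mu j) / 2))⁻¹) := by ring
        _ = 1 := by rw [e2, mul_inv_cancel₀ hg, one_mul]
    calc ‖c‖ = ‖c * (∏ j, ((Real.pi : ℂ) ^ (-(mu j0 + h - mu j) / 2) *
        Complex.Gamma ((mu j0 + h - mu j) / 2))) * P h‖ := by rw [mul_assoc, e, mul_one]
      _ = ‖c * (∏ j, ((Real.pi : ℂ) ^ (-(mu j0 + h - mu j) / 2) *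
        Complex.Gamma ((mu j0 + h - mu j) / 2)))‖ * ‖P h‖ := norm_mul _ _
      _ ≤ C * ‖P h‖ := mul_le_mul_of_nonneg_right hb (norm_nonneg _)
  have hlim : Tendsto (fun h : ℝ => C * ‖P h‖) (𝓝[>] 0) (𝓝 (C * ‖P 0‖)) :=
    ((continuous_const.mul hcont.norm).tendsto 0).mono_left nhdsWithin_le_nhds
  have hfin : ‖c‖ ≤ C * ‖P 0‖ := by
    refine ge_of_tendsto hlim ?_
    filter_upwards [Ioo_mem_nhdsGT (show (0 : ℝ) < 1 / 2 by norm_num)] with h hh
    exact key h hh.1 hh.2.le
  rw [hP0, norm_zero, mul_zero] at hfin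
  exact absurd (norm_pos_iff.2 hc) (not_lt.2 hfin)

end Pool.Agent.H27.L1.H67.GU
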